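import Pool.Agent.Lib_MP_1209e6_k3.Special
import Pool.Agent.Lib_MP_1209e6_nt.End
import Pool.Agent.Lib_MP_1209e6_cv.Cov41

/-!
# Campana's conjecture for varieties with covering families of almost homogeneous varieties

Let `X` be a complex projective variety. A covering family of almost homogeneous varieties of `X` is a
generically finite dominant rational map `V ⇢ X` together with a dominant rational map `V ⇢ B` whose generic
fibre is birational to a projective variety over `k = ℂ(B)` whose global vector fields generate the tangent
space at the generic point (curves of genus at most one, torsors under abelian varieties, quadrics, flag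
varieties, toric varieties, …). In terms of fields: `L = ℂ(V)` is a finite extension of `K = ℂ(X)`, `k ⊆ L`.
The images of the fibres in `X` may be singular, they may intersect each other, and `X` need not have any
fibration.

Theorem. If `X` has finitely many such covering families `(L_i, k_i)` and each rational function on `X` which
is algebraic over all the fields `k_i` is constant, then `X` is special and `X` is Brody-special.

The case `L_i = K` is that of transverse fibrations.

Application: let `(m, e)` be `(2, 4)`, `(3, 3)` or `(4, 2)`, `n` any natural number and `f` any nonzero polynomial in
`n` variables of degree at most `e` in each variable. Every `X` birational to the cyclic cover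
`w ^ m = f(x_1, …, x_n)` of `(ℙ¹)ⁿ` has `n` such families without a common function, given by the curves on which
all `x_j` with `j ≠ i` are constant (the curves `w ^ m = q(t)`, `deg q ≤ e`, have genus at most one). So `X` is
special and Brody-special.

The definitions `IsVariety`, `SpecialField`, `BrodySpecial` are in `Pool.Agent.Lib_MP_1209e6_ag.Defs`, the
definitions `Chart`, `GlobalField`, `AlmostHomogeneous` are in `Pool.Agent.Lib_MP_1209e6_fl.Defs`.

Sketch of the proof. Special: a rational form on `X` and the regular sections of the powers of the rank one
sheaf which it generates are pulled back to `L_i`; there the form is contracted with global vector fields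
and with lifts of derivations of `k_i` which preserve a given place, so the quotients of regular sections are
algebraic over `k_i` for all `i`, hence constant.

Brody-special: let `M` be a Galois extension of `K` containing all `L_i` and `D_1, …, D_m` the extensions to
`M` of all conjugates of finitely many global vector fields; their common kernel is `ℂ`. At a very general
point `p` each `D_j` gives a tube: a germ `(a, t) ↦ g (a, t)` of maps (`a` = starting point near `p`, `t` =
time), which extends to all times `t` as meromorphic curves in `X`, because the fibres are projective. Two
tubes are glued: on the annulus `1/2 < |ζ| < 2` one solves, in a Wiener algebra of Laurent series,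
`a (ζ) + g_1 (a (ζ), η (exp ζ - e)) = b (ζ) + g_2 (b (ζ), η (exp (1/ζ) - e))` with `a` holomorphic on
`|ζ| > 1/2` (infinity included) and `b` holomorphic on `|ζ| < 2`, by a contraction; `w ↦ ζ = exp w` gives
a new tube. If a function vanishes on a curve of the new tube it vanishes, since the times take each small
value `t` at points `ζ_k → ∞` (and `ζ_k → 0`), on all curves of the old tubes which it meets; therefore the
ideal of a curve of the new tube is stable under the derivations of both tubes (primes over a stable prime
in an integral extension are stable). After finitely many gluings the ideal of the entire curve through `p`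
is stable under all `D_j`, so it is zero, as `p` is very general.
-/

set_option autoImplicit false

open Pool.Agent.Campana Pool.Agent.CampanaFlow

namespace Pool.Agent.Results.MP_1209e6_ag.CoveringFamilies

/-- The function field of the projective variety with homogeneous prime ideal `P`: the field
generated by the quotients `x_i / x_j` in the fraction field of the coordinate ring. -/
noncomputable abbrev functionField {n : ℕ} (P : Ideal (MvPolynomial (Fin (n + 1)) ℂ)) [P.IsPrime] :
    IntermediateField ℂ (FractionRing (MvPolynomial (Fin (n + 1)) ℂ ⧸ P)) :=
  IntermediateField.adjoin ℂ
    (Set.range fun ij : Fin (n + 1) × Fin (n + 1) => coord P ij.1 / coord P ij.2)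

/-- A covering family of almost homogeneous varieties of the variety with function field `K`: a finite
extension `L` of `K` which is the function field of an almost homogeneous projective variety over the
subfield `k`, with generic point `[x_0 : … : x_N]`. -/
structure CoveringFamily (K : Type) [Field K] [Algebra ℂ K] where
  /-- the function field of the total space of the family -/
  L : Type
  [field : Field L]
  [algebraComplex : Algebra ℂ L]
  [algebra : Algebra K L]
  [tower : IsScalarTower ℂ K L]
  [finite : FiniteDimensional K L]
  /-- the function field of the base of the family -/
  k : IntermediateField ℂ L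
  /-- the dimension of the projective space -/
  N : ℕ
  /-- the homogeneous coordinates of the generic point of the generic member -/
  x : Fin (N + 1) → L
  almostHomogeneous : AlmostHomogeneous k x

attribute [instance] CoveringFamily.field CoveringFamily.algebraComplex CoveringFamily.algebra
  CoveringFamily.tower CoveringFamily.finite

/-- The rational function `u` of the variety is algebraic over the field `k` of the covering family, that is
constant on the general members of the family. -/
def CoveringFamily.IsBasic {K : Type} [Field K] [Algebra ℂ K] (F : CoveringFamily K) (u : K) : Prop :=
  IsAlgebraic F.k (algebraMap K F.L u)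

/-- The families have no common non-constant rational function: each `u` in `K` which is algebraic over the
fields `k` of all the families is constant. -/
def NoCommonFunction {K : Type} [Field K] [Algebra ℂ K] {r : ℕ} (F : Fin r → CoveringFamily K) : Prop :=
  ∀ u : K, (∀ i, (F i).IsBasic u) → ∃ c : ℂ, u = algebraMap ℂ K c

/-- `K = ℂ(x_1, …, x_n, w)` with algebraically independent `x_i` and `w ^ m = f(x_1, …, x_n)`: the function
field of the cyclic cover `w ^ m = f` of `(ℙ¹)ⁿ`. -/
def IsCover (K : Type) [Field K] [Algebra ℂ K] (m : ℕ) {n : ℕ} (f : MvPolynomial (Fin n) ℂ) : Prop :=
  ∃ (x : Fin n → K) (w : K), AlgebraicIndependent ℂ x ∧ w ^ m = MvPolynomial.aeval x f ∧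
    IntermediateField.adjoin ℂ (Set.range x ∪ {w}) = ⊤

theorem general (n : ℕ) (P : Ideal (MvPolynomial (Fin (n + 1)) ℂ)) [P.IsPrime] (hP : IsVariety P)
    (r : ℕ) (F : Fin r → CoveringFamily (functionField P)) (h : NoCommonFunction F) :
    SpecialField (functionField P) ∧ BrodySpecial P :=
  ⟨Pool.Agent.K3.special_covers (K := FunField P) (funField_fg P) (fun i => (F i).L)
      (fun i => (F i).k) (fun i => (F i).N) (fun i => (F i).x)
      (fun i => (F i).almostHomogeneous) h,
    Pool.Agent.CampanaNT.brody_covers P hP (fun i => (F i).L)
      (fun i => (F i).k) (fun i => (F i).N) (fun i => (F i).x)
      (fun i => (F i).almostHomogeneous) h⟩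

/-- (1) A projective variety with finitely many covering families of almost homogeneous varieties which have no
common non-constant rational function is special and Brody-special. (2) For every `n`, a projective variety
birational to `w ^ m = f(x_1, …, x_n)`, where `f` is a nonzero polynomial of degree at most `e` in each variable
and `(m, e)` is `(2, 4)`, `(3, 3)` or `(4, 2)`, has such families, so it is special and Brody-special. -/
theorem result :
    (∀ (n : ℕ) (P : Ideal (MvPolynomial (Fin (n + 1)) ℂ)) [P.IsPrime], IsVariety P →
      ∀ (r : ℕ) (F : Fin r → CoveringFamily (functionField P)), NoCommonFunction F →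
        SpecialField (functionField P) ∧ BrodySpecial P) ∧
    ∀ m e n : ℕ, (m = 2 ∧ e = 4 ∨ m = 3 ∧ e = 3 ∨ m = 4 ∧ e = 2) →
      ∀ f : MvPolynomial (Fin n) ℂ, f ≠ 0 → (∀ i, f.degreeOf i ≤ e) →
      ∀ (N : ℕ) (P : Ideal (MvPolynomial (Fin (N + 1)) ℂ)) [P.IsPrime], IsVariety P →
        IsCover (functionField P) m f →
          (∃ F : Fin n → CoveringFamily (functionField P), NoCommonFunction F) ∧
            SpecialField (functionField P) ∧ BrodySpecial P := by
  refine ⟨fun n P _ hP r F h => general n P hP r F h, fun m e n hme f hf hd N P _ hP hX => ?_⟩
  obtain ⟨x, w, hx, hw, hgen⟩ := hX
  have hm : m ≠ 0 := by omega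
  have hgood : Pool.Agent.CV.Good m e := by
    rcases hme with ⟨rfl, rfl⟩ | ⟨rfl, rfl⟩ | ⟨rfl, rfl⟩
    · exact Pool.Agent.CV.good_two
    · exact Pool.Agent.CV.good_three
    · exact Pool.Agent.CV.good_four
  obtain ⟨k, N', p, hp, hu⟩ := Pool.Agent.MQ.multi_families hm hgood f hf hd x w hx hw hgen
  have hF : NoCommonFunction (fun i : Fin n =>
      ({ L := functionField P, k := k i, N := N' i, x := p i, almostHomogeneous := hp i } :
        CoveringFamily (functionField P))) := fun u hu' => hu u hu'
  exact ⟨⟨_, hF⟩, general N P hP n _ hF⟩

end Pool.Agent.Results.MP_1209e6_ag.CoveringFamilies
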