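import Pool.Agent.Lib_MP_1209e6_dl.Class

/-!
# Campana's conjecture for the double planes branched in degree at most six

Let `f` be a non-zero complex polynomial in two variables of degree at most six, and let `X` be a complex
projective variety whose function field is `ℂ(x, y, w)` with `w² = f(x, y)`. Then `X` is special if and
only if it is Brody-special (it has a Zariski dense entire curve), if and only if `f` is not, up to a square,
the product of the equations of six different lines of the projective plane through one point.

For the general `f` of degree six `X` is a K3 surface of degree two and of Picard number one.

The definitions `IsVariety`, `SpecialField`, `BrodySpecial` are in `Pool.Agent.Lib_MP_1209e6_ag.Defs`.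

Sketch of the proof.

* Suppose that `f` has an irreducible factor `g` of degree at least two. On the tangent line
`b + t v` of the curve `g = 0` at its generic point `b` the polynomial `f` is `t² q(t)` with `deg q ≤ 4`.
The curves `w² = q(t)` have genus at most one, and they are a covering family of `X`, parametrized by the
curve `g = 0`: the curve `w² = q(t)`, with the model `[1 : t : t² : w]` and the global vector field `w ∂/∂t`,
is almost homogeneous over `k = ℂ(g = 0)`, and `L = k(t, w)` is finite over `ℂ(X)`. A rational function `u`
on `X` which is algebraic over `k` is constant on the tangent lines. A coefficient `φ(x, y)` of its minimal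
polynomial over `ℂ(x, y)` which is not a constant would define a foliation of the plane by lines, whose slope
`m(x, y)` would satisfy Burgers' equation `m_x + m m_y = 0` and would be a rational function; but a polynomial
solution of the corresponding polynomial equation is linear (all the lines pass through one point), and the
tangent lines of a nonlinear curve do not pass through one point. Hence `X` has a covering family of curves of
genus at most one without a common non-constant rational function, and the theorem on surfaces with covering
families (`Pool.Agent.K3`) applies.
* If `f` is a product of linear polynomials, we may divide by a square and suppose that they are pairwise not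
proportional, that there are at most six of them, and, adding the line at infinity, that their number is
even. If it is at most four, or if it is six and the lines do not pass through one point, the pencils of lines
through two different double points of the configuration give two fibrations of `X` in curves of genus at most
one.
* If the six lines pass through one point, `X` has a dominant rational map to a curve of genus two: it is
neither special nor Brody-special.
-/

set_option autoImplicit false

open MvPolynomial Pool.Agent.Campana

namespace Pool.Agent.Results.MP_1209e6_ag.DoublePlanes

/-- The function field of the projective variety with homogeneous prime ideal `P`: the field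
generated by the quotients `x_i / x_j` in the fraction field of the coordinate ring. -/
noncomputable abbrev functionField {n : ℕ} (P : Ideal (MvPolynomial (Fin (n + 1)) ℂ)) [P.IsPrime] :
    IntermediateField ℂ (FractionRing (MvPolynomial (Fin (n + 1)) ℂ ⧸ P)) :=
  IntermediateField.adjoin ℂ
    (Set.range fun ij : Fin (n + 1) × Fin (n + 1) => coord P ij.1 / coord P ij.2)

/-- `K = ℂ(x, y, w)` is the function field of the double plane `w² = f(x, y)`. -/
def IsDoublePlane (K : Type) [Field K] [Algebra ℂ K] (f : MvPolynomial (Fin 2) ℂ) : Prop :=
  ∃ (z : Fin 2 → K) (w : K), AlgebraicIndependent ℂ z ∧ w ^ 2 = aeval z f ∧
    IntermediateField.adjoin ℂ (Set.range z ∪ {w}) = ⊤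

/-- The equation `v 0 + v 1 x + v 2 y` of the line `v` of the projective plane (for the line at infinity,
`v 1 = v 2 = 0`, it is a constant). -/
noncomputable def line (v : Fin 3 → ℂ) : MvPolynomial (Fin 2) ℂ := C (v 0) + C (v 1) * X 0 + C (v 2) * X 1

/-- Up to the square of a polynomial, `f` is the product of the equations of six different lines of the
projective plane which pass through the point `p`. -/
def SixConcurrentLines (f : MvPolynomial (Fin 2) ℂ) : Prop :=
  ∃ (s : MvPolynomial (Fin 2) ℂ) (l : Fin 6 → Fin 3 → ℂ) (p : Fin 3 → ℂ), p ≠ 0 ∧
    (∀ i, p 0 * l i 0 + p 1 * l i 1 + p 2 * l i 2 = 0) ∧
    (∀ i j, i ≠ j → ∀ a b : ℂ, (∀ t, a * l i t = b * l j t) → a = 0 ∧ b = 0) ∧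
    f = s ^ 2 * ∏ i, line (l i)

/-- A double plane branched in degree at most six is special if and only if it is Brody-special, if and only
if it is not branched along six concurrent lines. -/
theorem result (f : MvPolynomial (Fin 2) ℂ) (hf : f ≠ 0) (hdeg : f.totalDegree ≤ 6)
    (n : ℕ) (P : Ideal (MvPolynomial (Fin (n + 1)) ℂ)) [P.IsPrime] (hP : IsVariety P)
    (hX : IsDoublePlane (functionField P) f) :
    (SpecialField (functionField P) ↔ ¬ SixConcurrentLines f) ∧
      (BrodySpecial P ↔ ¬ SixConcurrentLines f) :=
  Pool.Agent.DP.classify hf hdeg P hP hX

end Pool.Agent.Results.MP_1209e6_ag.DoublePlanes
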