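import Pool.Agent.Lib_MP_1209e6_ql.AllSmooth
import Pool.Agent.Lib_MP_1209e6_qk.Main
import Pool.Agent.Lib_MP_1209e6_qk.Low
import Pool.Agent.Lib_MP_1209e6_qk.Red29
import Pool.Agent.Lib_MP_1209e6_qk.Six93

/-!
# Campana's conjecture for the surfaces of degree at most four in `ℙ³`

Let `F` be an irreducible form over `ℂ` of degree `d ≤ 4` in four variables. A complex projective variety
birational to the surface `S : F = 0` in `ℙ³` is special if and only if it is Brody-special (it has a Zariski dense
entire curve); if `S` is not a cone or `d ≤ 3`, it is both.

The definitions `IsVariety`, `SpecialField`, `BrodySpecial` are in `Pool.Agent.Lib_MP_1209e6_ag.Defs`.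

Sketch of the proof, for the degree `4`.

* Let `S` be smooth without lines. There is a plane section of `S` with a tacnode: a point `Q` of `S` and a
tangent vector `v` with `Hess (F) (Q) v = 0` and vanishing third derivative of `F` at `Q` in the direction `v`.
(On a component of the curve `F = det Hess (F) = 0`, if there were no such point, a quotient of forms built from
the adjugate matrix of the Hessian matrix would be a regular function, so a constant, and all the quotients of
coordinates would be constant.) The planes near the plane of this section with two double points (or a tacnode)
are given by nine equations in ten unknowns, which have this solution; by Krull's height theorem and since a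
fixed plane section has finitely many singular points, there is such a plane `Π_T` over the algebraic closure
`k` of `ℂ(T)`, which is not a complex plane. Let `M` contain two independent copies of `k`, and consider the
intersection of the two copies of `Π_T` with `S`. If one of its points is a generic point of `S`, then `S` has two
families of plane curves of genus at most one (plane quartics with two double points: `w² = q(t)`, `deg q ≤ 4`)
without a common nonconstant function, as an element of both copies of `k` is complex. Otherwise the line
of intersection of the two planes is a complex line, which is contained in all the planes `Π_T`, and the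
derivative of the singular points of the sections shows that this is impossible. Now apply the theorems on
covering families (`Pool.Agent.K3.special_covers`, `Pool.Agent.CampanaNT.brody_covers`).
* Let `S` be smooth with exactly one line `L`. The planes through `L` give the family of the residual plane
cubics. Some residual cubic has a singular point off `L` (otherwise the quotients `l⁴ / G`, `l` a linear form in
the equations of `L`, `G` a partial derivative of `F`, would be regular functions, so constants). The plane of
this cubic has two double points, so that the argument above gives a second family of plane curves of genus at
most one, with a moving plane which does not contain `L`; it has no common nonconstant function with the first.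
* Let `S` be smooth with two lines. Each of them gives a family of residual plane cubics, and the two families have
no common nonconstant function.
* If `S` has a singular point which is not the vertex of a cone `S`, the projection from it shows that `S` is
birational to a double plane `w² = B² - 4 A C` branched in degree at most six, and the classification of the special
and of the Brody-special ones applies (`Pool.Agent.DP.classify`): it is both, or the branch curve consists of six
different lines through a point `p`. In the last case `A` has no term in the direction `p`, and then `B` and `C` are
such that `S` is a cone.
* Otherwise `S` is a cone over a smooth plane quartic `C`. The pull back of a form of `C` shows that it is not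
special; it has no Zariski dense entire curve, since entire curves in `C` are constant (Picard), by the lemma of
Ahlfors and Schwarz for the metric `|h|²` of negative curvature.

In the degrees `2` and `3` the projection from a point shows that `S` is birational to a double plane branched in
degree at most four.
-/

set_option autoImplicit false

open MvPolynomial Pool.Agent.Campana

namespace Pool.Agent.Results.MP_1209e6_ag.QuarticSurfaces

/-- The function field of the projective variety with homogeneous prime ideal `P`: the field
generated by the quotients `x_i / x_j` in the fraction field of the coordinate ring. -/
noncomputable abbrev functionField {n : ℕ} (P : Ideal (MvPolynomial (Fin (n + 1)) ℂ)) [P.IsPrime] :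
    IntermediateField ℂ (FractionRing (MvPolynomial (Fin (n + 1)) ℂ ⧸ P)) :=
  IntermediateField.adjoin ℂ
    (Set.range fun ij : Fin (n + 1) × Fin (n + 1) => coord P ij.1 / coord P ij.2)

/-- The surface `F = 0` is not a cone: the form `F` is not invariant under the translation by a vector `b ≠ 0`
(by Taylor's formula it is if and only if `b` is the vertex of a cone `F = 0`). -/
def NotCone (F : MvPolynomial (Fin 4) ℂ) : Prop :=
  ∀ b : Fin 4 → ℂ, b ≠ 0 → ∃ x : Fin 4 → ℂ, eval (x + b) F ≠ eval x F

/-- `K = ℂ(z_1, z_2, z_3)` with `F (1, z_1, z_2, z_3) = 0` and two of the `z_i` algebraically independent: the
function field of the surface `F = 0` (for `F` irreducible, and `F = 0` not the plane `X_0 = 0`). -/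
def IsSurface (K : Type) [Field K] [Algebra ℂ K] (F : MvPolynomial (Fin 4) ℂ) : Prop :=
  ∃ z : Fin 3 → K, aeval (Fin.cons 1 z : Fin 4 → K) F = 0 ∧
    (∃ i j, AlgebraicIndependent ℂ ![z i, z j]) ∧ IntermediateField.adjoin ℂ (Set.range z) = ⊤

/-- Let `F` be an irreducible form over `ℂ` of degree `d ≤ 4` in four variables and `X = V(P)` a projective
variety birational to the surface `F = 0` in `ℙ³`. Then `X` is special if and only if it has a Zariski
dense entire curve, and if the surface is not a cone or `d ≤ 3`, both hold. -/
theorem result (d : ℕ) (hd : d ≤ 4) (F : MvPolynomial (Fin 4) ℂ) (hF : F.IsHomogeneous d)
    (hirr : Irreducible F)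
    (n : ℕ) (P : Ideal (MvPolynomial (Fin (n + 1)) ℂ)) [P.IsPrime] (hP : IsVariety P)
    (hX : IsSurface (functionField P) F) :
    (SpecialField (functionField P) ↔ BrodySpecial P) ∧
      (NotCone F ∨ d ≤ 3 → SpecialField (functionField P) ∧ BrodySpecial P) := by
  have both : SpecialField (functionField P) ∧ BrodySpecial P →
      (SpecialField (functionField P) ↔ BrodySpecial P) ∧
        (NotCone F ∨ d ≤ 3 → SpecialField (functionField P) ∧ BrodySpecial P) := fun h =>
    ⟨⟨fun _ => h.2, fun _ => h.1⟩, fun _ => h⟩
  rcases Nat.lt_or_ge 3 d with h3 | h3
  · obtain rfl : d = 4 := by omega
    by_cases hs : ∀ a : Fin 4 → ℂ, (∀ j, eval a (pderiv j F) = 0) → a = 0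
    · exact both (Pool.Agent.QX.quartic_smooth hF (fun p hp => hs p fun j => hp j) P hP hX)
    · simp only [not_forall] at hs
      obtain ⟨a, ha, ha0⟩ := hs
      refine ⟨Pool.Agent.QK.singular_all hF hirr a ha0 ha P hP hX, fun h => ?_⟩
      have hc : NotCone F := h.resolve_right (by norm_num)
      exact Pool.Agent.QS.singular_both_of (fun _ _ _ hA hB hE c hc u w hL hD =>
        Pool.Agent.QK.six_cone93 hA hB hE c hc u w hL hD) hF hirr a ha0 ha hc P hP hX
  · exact both (Pool.Agent.Low.low h3 hF hirr P hP hX)

end Pool.Agent.Results.MP_1209e6_ag.QuarticSurfaces
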