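import Pool.Agent.Lib_MP_1209e6_dc.Inst

/-!
# Cyclic covers of projective space with trivial canonical bundle

Let `μ` be one of `2, 3, 4, 6` and let `F` be a form of degree `d = μ (n + 1) / (μ - 1)` in `n + 1` variables over
`ℂ` such that the hypersurface `F = 0` of `ℙⁿ` is smooth, or has only finitely many singular points, all of
multiplicity less than `d - e`, `e = 4, 3, 2, 1`. The cyclic cover `w ^ μ = F` of `ℙⁿ` (a Calabi-Yau variety of
dimension `n`) is special and Brody-special.

Sketch of the proof. Let `x` be the generic point of `ℙⁿ` and `Ω` an algebraic closure of `ℂ(x)`. There is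
a line through `x` on which `F` is `q² r`, `q³ r`, `q⁴ s² r`, `q⁶ s³ u² r` for `μ = 2, 3, 4, 6`, with
`deg s = deg u = 1` and `deg r ≤ e` (Krull's height theorem). Write `F = ∏ q_i ^ k_i r` and
`G = ∏ q_i ^ (k_i - 1)`, a polynomial of degree `n - 1`. No root of `G` is a singular point of `F = 0`: otherwise it
is a point `a` of `ℙⁿ(ℂ)`, it is the only root of `G`, so `t ^ (d - e)` divides `F (a + t x)`, hence `F (a + t y)`
for all `y`. The differential of `F` on the line gives a surjective map `Ωⁿ → Ω[T] / (G)` which kills the direction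
`v` of the line; since its image is an ideal, also for `(T - s) G` if `s` is a multiple root of `∏ q_i`, a common
root of `q_i` and `r`, or `s = 0`; counting dimensions shows that the roots are different and that the derivation
`D` with `D x = v` satisfies `D v = κ v`. So these lines form a covering family, and the covers of the lines are
curves of genus at most one (`y² = r`, `y³ = r`, `y⁴ = s² r`, `y⁶ = s³ u² r`). Each function of `ℂ(x)` which is
constant on the lines is constant: its differential vanishes on the generalized eigenspaces of the multiplication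
by `T` on `Ω[T] / (G)`. Now apply the theorem on covering families (`Pool.Agent.K3.special_covers`,
`Pool.Agent.CampanaNT.brody_covers`) to the conjugates.
-/

set_option autoImplicit false

open MvPolynomial Pool.Agent.Campana

namespace Pool.Agent.Results.MP_1209e6_ag.SmoothCyclicCovers

/-- The function field of the projective variety with homogeneous prime ideal `P`: the field
generated by the quotients `x_i / x_j` in the fraction field of the coordinate ring. -/
noncomputable abbrev functionField {n : ℕ} (P : Ideal (MvPolynomial (Fin (n + 1)) ℂ)) [P.IsPrime] :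
    IntermediateField ℂ (FractionRing (MvPolynomial (Fin (n + 1)) ℂ ⧸ P)) :=
  IntermediateField.adjoin ℂ
    (Set.range fun ij : Fin (n + 1) × Fin (n + 1) => coord P ij.1 / coord P ij.2)

/-- `a` is a singular point of the hypersurface `F = 0` (or `a = 0`): all partial derivatives of `F` vanish
at `a`. -/
def SingularAt {n : ℕ} (F : MvPolynomial (Fin (n + 1)) ℂ) (a : Fin (n + 1) → ℂ) : Prop :=
  ∀ j, eval a (pderiv j F) = 0

/-- The polynomial `F (a + t y)` in the parameter `t` of the line through `a` with direction `y`. -/
noncomputable def onLine {n : ℕ} (F : MvPolynomial (Fin (n + 1)) ℂ) (a y : Fin (n + 1) → ℂ) :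
    Polynomial ℂ :=
  aeval (fun i => Polynomial.C (a i) + Polynomial.X * Polynomial.C (y i)) F

/-- `K` is generated over `ℂ` by `n` algebraically independent elements `x_1, …, x_n` and a `μ`-th root `w` of
`F (1, x_1, …, x_n)`: it is the function field of the cyclic cover `w ^ μ = F` of `ℙⁿ`. -/
def IsCyclicCover (μ : ℕ) {n : ℕ} (K : Type) [Field K] [Algebra ℂ K] (F : MvPolynomial (Fin (n + 1)) ℂ) :
    Prop :=
  ∃ (x : Fin n → K) (w : K), AlgebraicIndependent ℂ x ∧
    w ^ μ = aeval (Fin.cons 1 x : Fin (n + 1) → K) F ∧
    IntermediateField.adjoin ℂ (Set.range x ∪ {w}) = ⊤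

/-- Let `(μ, e)` be `(2, 4)`, `(3, 3)`, `(4, 2)` or `(6, 1)`, let `n ≥ 1` and let `F ≠ 0` be a form of degree `d`
in `n + 1` variables over `ℂ`, `(μ - 1) d = μ (n + 1)`. Suppose that the hypersurface `F = 0` of `ℙⁿ` has only
finitely many singular points (none if it is smooth) and that some line through each singular point `a` meets the
hypersurface at `a` with multiplicity less than `d - e`. Then every projective variety `X = V(P)` which is
birational to the cyclic cover `w ^ μ = F` of `ℙⁿ` is special and has a Zariski dense entire curve. -/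
theorem result (μ e : ℕ)
    (hμ : (μ = 2 ∧ e = 4) ∨ (μ = 3 ∧ e = 3) ∨ (μ = 4 ∧ e = 2) ∨ (μ = 6 ∧ e = 1))
    (n d : ℕ) (hn : 1 ≤ n) (hd : (μ - 1) * d = μ * (n + 1)) (F : MvPolynomial (Fin (n + 1)) ℂ) (h0 : F ≠ 0)
    (hF : F.IsHomogeneous d)
    (hfin : ∃ A : Finset (Fin (n + 1) → ℂ), ∀ p, SingularAt F p → ∃ a ∈ A, ∃ c : ℂ, p = c • a)
    (hmult : ∀ a, a ≠ 0 → SingularAt F a → ∃ y, ¬ Polynomial.X ^ (d - e) ∣ onLine F a y)
    (N : ℕ) (P : Ideal (MvPolynomial (Fin (N + 1)) ℂ)) [P.IsPrime] (hP : IsVariety P)
    (hK : IsCyclicCover μ (functionField P) F) :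
    SpecialField (functionField P) ∧ BrodySpecial P := by
  obtain ⟨m, rfl⟩ : ∃ m, n = m + 1 := ⟨n - 1, by omega⟩
  exact Pool.Agent.DC.cyclic_cover_mild (m := m) (F := F) hμ hd hF ⟨h0, hfin, hmult⟩ P hP hK

end Pool.Agent.Results.MP_1209e6_ag.SmoothCyclicCovers
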